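import Pool.Agent.V5helper52.UC.Mean

/-!
Boxes in `ℤ^ι` with all sides tending to infinity form a Følner sequence.
-/

set_option autoImplicit false

namespace Pool.Agent.V5helper52.UC

open Filter Topology Finset

theorem mean_of_boxes {ι : Type} [Fintype ι] [DecidableEq ι] (E : Set (ι → ℤ)) (α : ℝ)
    (h : ∀ n : ℕ, ∃ a b : ι → ℤ, (∀ p, (n : ℤ) + 1 ≤ b p - a p) ∧
      (α - 1 / ((n : ℝ) + 1)) * ∏ p, ((b p - a p : ℤ) : ℝ) ≤
        (((E ∩ {x | ∀ p, a p ≤ x p ∧ x p < b p}).ncard : ℕ) : ℝ)) :
    ∃ μ : Mean (ι → ℤ), α ≤ μ.m (E.indicator 1) := by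
  classical
  choose a b hab hd using h
  let F : ℕ → Finset (ι → ℤ) := fun n => Fintype.piFinset fun p => Ico (a n p) (b n p)
  have hmem : ∀ n x, x ∈ F n ↔ ∀ p, a n p ≤ x p ∧ x p < b n p := by
    intro n x
    simp [F, Fintype.mem_piFinset]
  have hcard : ∀ n, ((F n).card : ℝ) = ∏ p, ((b n p - a n p : ℤ) : ℝ) := by
    intro n
    simp only [F]
    rw [Fintype.card_piFinset]
    push_cast
    refine prod_congr rfl fun p _ => ?_
    rw [Int.card_Ico]
    have h1 : 0 ≤ b n p - a n p := by have := hab n p; omega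
    have h2 : (((b n p - a n p).toNat : ℕ) : ℤ) = b n p - a n p := Int.toNat_of_nonneg h1
    exact_mod_cast h2
  have hne : ∀ n, (F n).Nonempty := by
    intro n
    refine ⟨a n, (hmem n _).2 fun p => ⟨le_rfl, ?_⟩⟩
    have := hab n p
    omega
  refine exists_mean F hne ?_ _ ?_ α ?_
  · intro v
    have hG : ∀ n, ({x ∈ F n | x + v ∈ F n} : Finset (ι → ℤ)) =
        Fintype.piFinset fun p => Ico (max (a n p) (a n p - v p)) (min (b n p) (b n p - v p)) := by
      intro n
      ext x
      rw [mem_filter, hmem, hmem, Fintype.mem_piFinset]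
      simp only [mem_Ico, Pi.add_apply]
      constructor
      · rintro ⟨h1, h2⟩ p
        have h3 := h1 p
        have h4 := h2 p
        constructor
        · exact max_le h3.1 (by omega)
        · exact lt_min h3.2 (by omega)
      · intro h1
        constructor
        · intro p
          have h2 := h1 p
          rw [max_le_iff, lt_min_iff] at h2
          omega
        · intro p
          have h2 := h1 p
          rw [max_le_iff, lt_min_iff] at h2
          omega
    have hG2 : ∀ n, (({x ∈ F n | x + v ∈ F n} : Finset (ι → ℤ)).card : ℝ) / (F n).card =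
        ∏ p, (((b n p - a n p - |v p|).toNat : ℝ) / ((b n p - a n p : ℤ) : ℝ)) := by
      intro n
      rw [hcard, hG, Fintype.card_piFinset, prod_div_distrib]
      congr 1
      push_cast
      refine prod_congr rfl fun p _ => ?_
      rw [Int.card_Ico]
      congr 2
      rcases le_total 0 (v p) with hv | hv
      · rw [abs_of_nonneg hv, max_eq_left (by omega), min_eq_right (by omega)]
        ring
      · rw [abs_of_nonpos hv, max_eq_right (by omega), min_eq_left (by omega)]
        ring
    simp only [hG2]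
    rw [show (1 : ℝ) = ∏ _p : ι, (1 : ℝ) by simp]
    refine tendsto_finsetProd _ fun p _ => ?_
    have h1 : Tendsto (fun n : ℕ => 1 - |(v p : ℝ)| * (1 / ((n : ℝ) + 1))) atTop (𝓝 (1 - |(v p : ℝ)| * 0)) :=
      (tendsto_one_div_add_atTop_nhds_zero_nat.const_mul _).const_sub 1
    rw [mul_zero, sub_zero] at h1
    refine tendsto_of_tendsto_of_tendsto_of_le_of_le h1 tendsto_const_nhds ?_ ?_
    · intro n
      have h2 := hab n p
      have h3 : ((n : ℝ) + 1) ≤ ((b n p - a n p : ℤ) : ℝ) := by exact_mod_cast h2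
      have h0 : (0 : ℝ) < (n : ℝ) + 1 := by positivity
      have h4 : (0 : ℝ) < ((b n p - a n p : ℤ) : ℝ) := by linarith
      have h5 : ((b n p - a n p : ℤ) : ℝ) - |(v p : ℝ)| ≤ ((b n p - a n p - |v p|).toNat : ℝ) := by
        have h6 : b n p - a n p - |v p| ≤ (((b n p - a n p - |v p|).toNat : ℕ) : ℤ) :=
          Int.self_le_toNat _
        have h7 : ((b n p - a n p - |v p| : ℤ) : ℝ) ≤ ((b n p - a n p - |v p|).toNat : ℝ) := by
          exact_mod_cast h6
        refine le_trans (le_of_eq ?_) h7
        push_cast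
        ring
      show 1 - |(v p : ℝ)| * (1 / ((n : ℝ) + 1)) ≤ _
      rw [le_div_iff₀ h4]
      refine le_trans ?_ h5
      have h8 : 1 ≤ (1 / ((n : ℝ) + 1)) * ((b n p - a n p : ℤ) : ℝ) := by
        rw [one_div, inv_mul_eq_div, one_le_div h0]
        exact h3
      have h9 := abs_nonneg (v p : ℝ)
      nlinarith
    · intro n
      have h2 := hab n p
      have h4 : (0 : ℝ) < ((b n p - a n p : ℤ) : ℝ) := by
        have : 0 < b n p - a n p := by omega
        exact_mod_cast this
      show _ ≤ (1 : ℝ)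
      rw [div_le_one h4]
      have h6 : (((b n p - a n p - |v p|).toNat : ℕ) : ℤ) ≤ b n p - a n p := by
        have := abs_nonneg (v p)
        omega
      exact_mod_cast h6
  · refine ⟨1, fun x => ?_⟩
    by_cases hx : x ∈ E <;> simp [hx]
  · intro n
    have hc0 : (0 : ℝ) < (F n).card := by exact_mod_cast (hne n).card_pos
    have h1 : ∑ x ∈ F n, (E.indicator 1 x : ℝ) =
        (((E ∩ {x | ∀ p, a n p ≤ x p ∧ x p < b n p}).ncard : ℕ) : ℝ) := by
      have h2 : E ∩ {x | ∀ p, a n p ≤ x p ∧ x p < b n p} =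
          (({x ∈ F n | x ∈ E} : Finset (ι → ℤ)) : Set (ι → ℤ)) := by
        ext x
        simp only [Set.mem_inter_iff, Set.mem_ofPred_eq, coe_filter, hmem]
        exact and_comm
      rw [h2, Set.ncard_coe_finset, card_filter]
      push_cast
      refine sum_congr rfl fun x _ => ?_
      by_cases hx : x ∈ E <;> simp [hx]
    have h3 := hd n
    rw [← hcard, ← h1] at h3
    rw [inv_mul_eq_div, le_div_iff₀ hc0]
    exact h3

end Pool.Agent.V5helper52.UC
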