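import Pool.Agent.V5helper52.UC.Mat

/-!
Any `DD m + 1` members of the family `WW m s`, `s : ℕ`, span a subgroup of finite index of the
trace zero matrices.
-/

set_option autoImplicit false

namespace Pool.Agent.V5helper52.UC

open Finset Matrix

variable {m : ℕ}

/-- the coefficient matrices of the family -/
def cc (m k : ℕ) : Matrix (Fin (m + 2)) (Fin (m + 2)) ℤ := fun i j =>
  if j = 0 then - ∑ l : Fin (m + 2), (if l = 0 then 0 else
    if k = 2 * (m + 2) * ((l : ℕ) - 1) + l + i then 1 else 0)
  else if k = 2 * (m + 2) * ((j : ℕ) - 1) + i then 1 else 0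

/-- a bound for the degree -/
def DD (m : ℕ) : ℕ := 2 * (m + 2) * (m + 2)

theorem exp_lt (m : ℕ) (i l : Fin (m + 2)) :
    2 * (m + 2) * ((l : ℕ) - 1) + l + i < DD m + 1 := by
  have h1 : (l : ℕ) - 1 ≤ m := by have := l.2; omega
  have h2 : 2 * (m + 2) * ((l : ℕ) - 1) ≤ 2 * (m + 2) * m := Nat.mul_le_mul_left _ h1
  have h3 : DD m = 2 * (m + 2) * m + 2 * (m + 2) * 2 := by unfold DD; ring
  have := l.2
  have := i.2
  omega

theorem exp_lt' (m : ℕ) (i l : Fin (m + 2)) :
    2 * (m + 2) * ((l : ℕ) - 1) + i < DD m + 1 := by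
  have := exp_lt m i l
  omega

theorem WW_expand (s : ℤ) (i j : Fin (m + 2)) :
    WW m s i j = ∑ k ∈ range (DD m + 1), s ^ k * cc m k i j := by
  unfold WW cc
  by_cases hj : j = 0
  · simp only [if_pos hj, mul_neg, sum_neg_distrib, mul_sum]
    rw [sum_comm]
    congr 1
    refine sum_congr rfl fun l _ => ?_
    by_cases hl : l = 0
    · simp [hl]
    · simp only [if_neg hl, mul_ite, mul_one, mul_zero]
      rw [sum_ite_eq', if_pos (mem_range.2 (exp_lt m i l))]
  · simp only [if_neg hj, mul_ite, mul_one, mul_zero]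
    rw [sum_ite_eq', if_pos (mem_range.2 (exp_lt' m i j))]

theorem cc_zero {k : ℕ} (hk : DD m < k) : cc m k = 0 := by
  ext i j
  unfold cc
  by_cases hj : j = 0
  · rw [if_pos hj, sum_eq_zero, neg_zero]
    · rfl
    · intro l _
      by_cases hl : l = 0
      · rw [if_pos hl]
      · rw [if_neg hl, if_neg]
        have := exp_lt m i l
        omega
  · rw [if_neg hj, if_neg]
    · rfl
    · have := exp_lt' m i j
      omega

theorem uniq {N a b r r' : ℕ} (hr : r < N) (hr' : r' < N) (h : N * a + r = N * b + r') :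
    a = b ∧ r = r' := by
  have h1 : (N * a + r) / N = a := by
    rw [Nat.mul_add_div (by omega), Nat.div_eq_of_lt hr, add_zero]
  have h2 : (N * b + r') / N = b := by
    rw [Nat.mul_add_div (by omega), Nat.div_eq_of_lt hr', add_zero]
  have h3 : a = b := by rw [← h1, ← h2, h]
  subst h3
  exact ⟨rfl, by omega⟩

theorem cc_apply {q r : ℕ} (hq : q < m + 1) (hr : r < 2 * (m + 2)) (i j : Fin (m + 2)) :
    cc m (2 * (m + 2) * q + r) i j = if j = 0 then (if r = q + 1 + i then -1 else 0) else
      if (j : ℕ) = q + 1 ∧ r = i then 1 else 0 := by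
  unfold cc
  by_cases hj : j = 0
  · rw [if_pos hj, if_pos hj]
    have hq2 : (⟨q + 1, by omega⟩ : Fin (m + 2)) ≠ 0 := by
      intro h
      have := congrArg Fin.val h
      simp at this
    rw [sum_eq_single (⟨q + 1, by omega⟩ : Fin (m + 2))]
    · rw [if_neg hq2]
      simp only [Nat.add_sub_cancel]
      by_cases h : r = q + 1 + i
      · rw [if_pos h, if_pos (by rw [h]; ring)]
      · rw [if_neg h, if_neg (by omega), neg_zero]
    · intro l _ hl
      by_cases hl0 : l = 0
      · rw [if_pos hl0]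
      · rw [if_neg hl0, if_neg]
        intro h
        have h1 := uniq (N := 2 * (m + 2)) (a := q) (b := (l : ℕ) - 1) hr (r' := (l : ℕ) + i)
          (by have := l.2; have := i.2; omega) (by rw [h]; ring)
        apply hl
        apply Fin.ext
        have : (l : ℕ) ≠ 0 := fun h0 => hl0 (Fin.ext h0)
        show (l : ℕ) = q + 1
        omega
    · intro h
      exact absurd (mem_univ _) h
  · rw [if_neg hj, if_neg hj]
    have hj0 : (j : ℕ) ≠ 0 := fun h0 => hj (Fin.ext h0)
    by_cases h : (j : ℕ) = q + 1 ∧ r = i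
    · rw [if_pos h, if_pos]
      rw [h.1, h.2, Nat.add_sub_cancel]
    · rw [if_neg h, if_neg]
      intro h1
      have h2 := uniq (N := 2 * (m + 2)) (a := q) (b := (j : ℕ) - 1) hr (r' := (i : ℕ))
        (by have := i.2; omega) h1
      apply h
      constructor
      · omega
      · exact h2.2

/-- the span of the coefficient matrices -/
theorem single_mem0 {i : Fin (m + 2)} (hi : i ≠ 0) :
    (Matrix.single i 0 1 : Matrix (Fin (m + 2)) (Fin (m + 2)) ℤ) ∈
      AddSubgroup.closure (Set.range (cc m)) := by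
  have hi0 : (i : ℕ) ≠ 0 := fun h0 => hi (Fin.ext h0)
  have h : cc m (2 * (m + 2) * m + (m + 1 + i)) = -Matrix.single i 0 1 := by
    ext a b
    rw [cc_apply (by omega) (by have := i.2; omega), Matrix.neg_apply, Matrix.single_apply]
    by_cases hb : b = 0
    · rw [if_pos hb]
      by_cases ha : i = a
      · rw [if_pos (by rw [ha]), if_pos ⟨ha, hb.symm⟩]
      · rw [if_neg, if_neg (fun h => ha h.1), neg_zero]
        intro h
        exact ha (Fin.ext (by omega))
    · rw [if_neg hb, if_neg, if_neg (fun h => hb h.2.symm), neg_zero]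
      intro h
      have := a.2
      omega
  rw [← neg_neg (Matrix.single i 0 1 : Matrix (Fin (m + 2)) (Fin (m + 2)) ℤ), ← h]
  exact AddSubgroup.neg_mem _ (AddSubgroup.subset_closure ⟨_, rfl⟩)

theorem single_mem (i j : Fin (m + 2)) :
    (Matrix.single i j 1 - (if i = j then Matrix.single 0 0 1 else 0) :
      Matrix (Fin (m + 2)) (Fin (m + 2)) ℤ) ∈ AddSubgroup.closure (Set.range (cc m)) := by
  by_cases hj : j = 0
  · subst hj
    by_cases hi : i = 0
    · subst hi
      rw [if_pos rfl, sub_self]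
      exact AddSubgroup.zero_mem _
    · rw [if_neg hi, sub_zero]
      exact single_mem0 hi
  have hj0 : (j : ℕ) ≠ 0 := fun h0 => hj (Fin.ext h0)
  have hjm := j.2
  have him := i.2
  have h : cc m (2 * (m + 2) * ((j : ℕ) - 1) + i) = Matrix.single i j 1 -
      (if (j : ℕ) ≤ i then Matrix.single ⟨(i : ℕ) - j, by omega⟩ 0 1 else 0) := by
    ext a b
    rw [cc_apply (by omega) (by omega), Matrix.sub_apply, Matrix.single_apply]
    by_cases hb : b = 0
    · have hs1 : (if i = a ∧ j = b then (1 : ℤ) else 0) = 0 :=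
        if_neg (fun h => hj (h.2.trans hb))
      rw [if_pos hb, hs1, zero_sub]
      by_cases hji : (j : ℕ) ≤ i
      · rw [if_pos hji, Matrix.single_apply]
        by_cases ha : (i : ℕ) = (j : ℕ) - 1 + 1 + a
        · rw [if_pos ha, if_pos ⟨Fin.ext (by simp; omega), hb.symm⟩]
        · rw [if_neg ha, if_neg, neg_zero]
          intro h
          have := congrArg Fin.val h.1
          simp at this
          omega
      · rw [if_neg hji, if_neg (by omega)]
        rfl
    · rw [if_neg hb]
      have h0 : (if (j : ℕ) ≤ i then Matrix.single ⟨(i : ℕ) - j, by omega⟩ 0 1 else 0 :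
          Matrix (Fin (m + 2)) (Fin (m + 2)) ℤ) a b = 0 := by
        by_cases hji : (j : ℕ) ≤ i
        · rw [if_pos hji, Matrix.single_apply, if_neg (fun h => hb h.2.symm)]
        · rw [if_neg hji]
          rfl
      rw [h0, sub_zero]
      by_cases h : i = a ∧ j = b
      · rw [if_pos h, if_pos]
        rw [← h.1, ← h.2]
        exact ⟨by omega, rfl⟩
      · rw [if_neg h, if_neg]
        intro h1
        exact h ⟨Fin.ext h1.2, Fin.ext (by omega)⟩
  have h1 : cc m (2 * (m + 2) * ((j : ℕ) - 1) + i) ∈ AddSubgroup.closure (Set.range (cc m)) :=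
    AddSubgroup.subset_closure ⟨_, rfl⟩
  by_cases hij : i = j
  · subst hij
    rw [if_pos rfl]
    rw [h, if_pos le_rfl] at h1
    have e : (⟨(i : ℕ) - i, by omega⟩ : Fin (m + 2)) = 0 := Fin.ext (by simp)
    rwa [e] at h1
  · rw [if_neg hij, sub_zero]
    have hne : (i : ℕ) ≠ j := fun h => hij (Fin.ext h)
    by_cases hji : (j : ℕ) ≤ i
    · rw [h, if_pos hji] at h1
      have h2 : (Matrix.single ⟨(i : ℕ) - j, by omega⟩ 0 1 :
          Matrix (Fin (m + 2)) (Fin (m + 2)) ℤ) ∈ AddSubgroup.closure (Set.range (cc m)) := by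
        refine single_mem0 ?_
        intro h0
        have := congrArg Fin.val h0
        simp at this
        omega
      have h3 := AddSubgroup.add_mem _ h1 h2
      rwa [sub_add_cancel] at h3
    · rw [h, if_neg hji, sub_zero] at h1
      exact h1

theorem trace_zero_mem (A : Matrix (Fin (m + 2)) (Fin (m + 2)) ℤ) (hA : A.trace = 0) :
    A ∈ AddSubgroup.closure (Set.range (cc m)) := by
  have h1 : A = ∑ i, ∑ j, (A i j) • (Matrix.single i j 1 -
      (if i = j then Matrix.single 0 0 1 else 0) : Matrix (Fin (m + 2)) (Fin (m + 2)) ℤ) := by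
    conv_lhs => rw [Matrix.matrix_eq_sum_single A]
    simp only [smul_sub, sum_sub_distrib]
    have h2 : ∑ i, ∑ j, (A i j) • (if i = j then Matrix.single 0 0 1 else 0 :
        Matrix (Fin (m + 2)) (Fin (m + 2)) ℤ) = 0 := by
      have h3 : ∀ i : Fin (m + 2), ∑ j, (A i j) • (if i = j then Matrix.single 0 0 1 else 0 :
          Matrix (Fin (m + 2)) (Fin (m + 2)) ℤ) = (A i i) • Matrix.single 0 0 1 := by
        intro i
        rw [sum_eq_single i]
        · rw [if_pos rfl]
        · intro j _ hj
          rw [if_neg hj.symm, smul_zero]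
        · intro h
          exact absurd (mem_univ _) h
      rw [sum_congr rfl fun i _ => h3 i, ← sum_smul]
      have h4 : ∑ i, A i i = 0 := hA
      rw [h4, zero_smul]
    rw [h2, sub_zero]
    refine sum_congr rfl fun i _ => sum_congr rfl fun j _ => ?_
    rw [Matrix.smul_single]
    simp
  rw [h1]
  exact AddSubgroup.sum_mem _ fun i _ => AddSubgroup.sum_mem _ fun j _ =>
    AddSubgroup.zsmul_mem _ (single_mem i j) _

theorem span_T (T : Finset ℕ) (hT : T.card = DD m + 1) :
    ∃ Δ : ℕ, 1 ≤ Δ ∧ ∀ A : Matrix (Fin (m + 2)) (Fin (m + 2)) ℤ, A.trace = 0 →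
      Δ • A ∈ AddSubgroup.closure ((fun s : ℕ => -(WW m (s : ℤ))) '' (T : Set ℕ)) := by
  let τ : Fin (DD m + 1) → ℤ := fun i => (((T.equivFinOfCardEq hT).symm i : ℕ) : ℤ)
  have hτ : Function.Injective τ := by
    intro a b hab
    exact (T.equivFinOfCardEq hT).symm.injective (Subtype.ext (Nat.cast_injective (R := ℤ) hab))
  set Vd : Matrix (Fin (DD m + 1)) (Fin (DD m + 1)) ℤ := Matrix.vandermonde τ with hVd
  have hdet : Vd.det ≠ 0 := Matrix.det_vandermonde_ne_zero_iff.2 hτ
  set G := AddSubgroup.closure ((fun s : ℕ => -(WW m (s : ℤ))) '' (T : Set ℕ)) with hG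
  have hWG : ∀ i, WW m (τ i) ∈ G := by
    intro i
    have h1 : -(WW m (τ i)) ∈ G :=
      AddSubgroup.subset_closure ⟨_, ((T.equivFinOfCardEq hT).symm i).2, rfl⟩
    have := AddSubgroup.neg_mem _ h1
    rwa [neg_neg] at this
  have hcc : ∀ k, Vd.det • cc m k ∈ G := by
    intro k
    by_cases hk : DD m < k
    · rw [cc_zero hk, smul_zero]
      exact AddSubgroup.zero_mem _
    push Not at hk
    have h1 : Vd.det • cc m k = ∑ i, Vd.adjugate ⟨k, by omega⟩ i • WW m (τ i) := by
      ext a b
      rw [Matrix.smul_apply, Matrix.sum_apply]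
      simp only [Matrix.smul_apply, smul_eq_mul]
      set x : Fin (DD m + 1) → ℤ := fun k' => cc m k' a b with hx
      have h2 : ∀ i, WW m (τ i) a b = (Vd *ᵥ x) i := by
        intro i
        rw [WW_expand, ← Fin.sum_univ_eq_sum_range (fun k => τ i ^ k * cc m k a b) (DD m + 1)]
        unfold Matrix.mulVec dotProduct
        refine sum_congr rfl fun k' _ => ?_
        show τ i ^ (k' : ℕ) * cc m k' a b = Matrix.vandermonde τ i k' * x k'
        rw [Matrix.vandermonde_apply]
      have h3 : ∑ i, Vd.adjugate ⟨k, by omega⟩ i * WW m (τ i) a b =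
          (Vd.adjugate *ᵥ (Vd *ᵥ x)) ⟨k, by omega⟩ := by
        rw [Matrix.mulVec, dotProduct]
        exact sum_congr rfl fun i _ => by rw [h2]
      rw [h3, Matrix.mulVec_mulVec, Matrix.adjugate_mul, Matrix.smul_mulVec, Matrix.one_mulVec]
      rfl
    rw [h1]
    exact AddSubgroup.sum_mem _ fun i _ => AddSubgroup.zsmul_mem _ (hWG i) _
  refine ⟨Vd.det.natAbs, Nat.one_le_iff_ne_zero.2 (Int.natAbs_ne_zero.2 hdet), fun A hA => ?_⟩
  have h1 : Vd.det • A ∈ G := by
    have h2 := trace_zero_mem A hA
    clear hA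
    induction h2 using AddSubgroup.closure_induction with
    | mem x hx =>
      obtain ⟨k, rfl⟩ := hx
      exact hcc k
    | zero => rw [smul_zero]; exact AddSubgroup.zero_mem _
    | add x y hx hy ihx ihy =>
      rw [smul_add]
      exact AddSubgroup.add_mem _ ihx ihy
    | neg x hx ih =>
      rw [smul_neg]
      exact AddSubgroup.neg_mem _ ih
  rw [← natCast_zsmul, Int.natCast_natAbs]
  rcases abs_choice Vd.det with h | h
  · rw [h]; exact h1
  · rw [h, neg_smul]; exact AddSubgroup.neg_mem _ h1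

end Pool.Agent.V5helper52.UC
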