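import Pool.Agent.V5helper52.UC.Vdc

/-!
The abstract uniform recurrence theorem along families of quadratic orbits.
-/

set_option autoImplicit false

namespace Pool.Agent.V5helper52.UC

open Filter Topology Finset
open scoped RealInnerProductSpace

theorem exists_common {V : Type} [AddCommGroup V] (w : ℕ → V) (D : ℕ)
    (hw : ∀ T : Finset ℕ, T.card = D + 1 →
      ∃ m : ℕ, 1 ≤ m ∧ ∀ v : V, m • v ∈ AddSubgroup.closure (w '' (T : Set ℕ)))
    (L R : ℕ) :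
    ∃ M : ℕ, 1 ≤ M ∧ ∀ (k : ℕ) (z : ℤ), z ≠ 0 → |z| ≤ L → ∀ T ⊆ range R, T.card = D + 1 →
      ∀ v : V, (k * M) • v ∈ AddSubgroup.closure ((fun i => z • (k • w i)) '' (T : Set ℕ)) := by
  have hw' : ∀ T : Finset ℕ, ∃ m : ℕ, 1 ≤ m ∧ (T.card = D + 1 →
      ∀ v : V, m • v ∈ AddSubgroup.closure (w '' (T : Set ℕ))) := by
    intro T
    by_cases h : T.card = D + 1
    · obtain ⟨m, hm, hv⟩ := hw T h
      exact ⟨m, hm, fun _ => hv⟩
    · exact ⟨1, le_rfl, fun h' => absurd h' h⟩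
  choose m hm1 hm using hw'
  refine ⟨L.factorial * ∏ T ∈ (range R).powerset, m T, ?_, ?_⟩
  · exact Nat.one_le_iff_ne_zero.2 (mul_ne_zero (Nat.factorial_ne_zero _)
      (prod_ne_zero_iff.2 fun T _ => by have := hm1 T; omega))
  intro k z hz hzL T hT hTc v
  obtain ⟨q, hq⟩ : m T ∣ ∏ T ∈ (range R).powerset, m T :=
    dvd_prod_of_mem _ (mem_powerset.2 hT)
  obtain ⟨r, hr⟩ : z ∣ (L.factorial : ℤ) := by
    rw [← Int.natAbs_dvd_natAbs.trans Iff.rfl, Int.natAbs_natCast]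
    refine Nat.dvd_factorial (Int.natAbs_pos.2 hz) ?_
    have : ((z.natAbs : ℕ) : ℤ) ≤ L := by rw [Int.natCast_natAbs]; exact hzL
    exact_mod_cast this
  let φ : V →+ V := (zsmulAddGroupHom z).comp (nsmulAddMonoidHom k)
  have hφ : ∀ x, φ x = z • (k • x) := fun x => rfl
  have h1 : (k * (L.factorial * ∏ T ∈ (range R).powerset, m T)) • v =
      φ ((r * q) • (m T • v)) := by
    rw [hφ, hq, ← natCast_zsmul, ← natCast_zsmul, ← natCast_zsmul, smul_smul, smul_smul, smul_smul]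
    congr 1
    push_cast
    rw [hr]
    ring
  have h2 : (fun i => z • (k • w i)) '' (T : Set ℕ) = φ '' (w '' (T : Set ℕ)) := by
    rw [Set.image_image]
    rfl
  rw [h1, h2, ← AddMonoidHom.map_closure]
  exact AddSubgroup.mem_map_of_mem _ (AddSubgroup.zsmul_mem _ (hm T hTc v) _)

/-- uniform recurrence -/
theorem main_abs {V : Type} [AddCommGroup V] (w : ℕ → V) (D : ℕ)
    (hw : ∀ T : Finset ℕ, T.card = D + 1 →
      ∃ m : ℕ, 1 ≤ m ∧ ∀ v : V, m • v ∈ AddSubgroup.closure (w '' (T : Set ℕ)))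
    {α : ℝ} (hα : 0 < α) :
    ∃ J M R : ℕ, 1 ≤ M ∧ ∀ (H : Type) [NormedAddCommGroup H] [InnerProductSpace ℝ H]
      [CompleteSpace H] (ρ : Rep V H) (f e : H), ‖f‖ ≤ 1 → ‖e‖ ≤ 1 → (∀ a, ρ.U a e = e) →
      α ≤ ⟪f, e⟫ → ∃ j < J, ∀ b c : ℕ → V, ∃ i < R, ∃ t : ℕ,
        ⟪ρ.U (M ^ j • (t ^ 2 • w i + t • b i + c i)) f, f⟫ ≠ 0 := by
  obtain ⟨L, hL⟩ := exists_nat_gt (8 / α ^ 4)
  have hL0 : (0 : ℝ) < L := lt_trans (by positivity) hL
  have hL1 : 1 ≤ L := by exact_mod_cast hL0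
  obtain ⟨R, hR⟩ := exists_nat_gt (8 * (D + 1) / α ^ 4)
  have hR0 : (0 : ℝ) < R := lt_trans (by positivity) hR
  obtain ⟨J, hJ⟩ := exists_nat_gt (4 / α ^ 2)
  have hJ0 : (0 : ℝ) < J := lt_trans (by positivity) hJ
  obtain ⟨M, hM1, hM⟩ := exists_common w D hw (2 * L) R
  refine ⟨J, M, R, hM1, ?_⟩
  intro H _ _ _ ρ f e hf he hinv hfe
  let K : ℕ → Set V := fun k => Set.range fun v : V => k • v
  have hKanti : ∀ k, K (k * M) ⊆ K k := by
    rintro k _ ⟨v, rfl⟩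
    exact ⟨M • v, by simp only [smul_smul]⟩
  -- the lower bound for all projections
  have hlow : ∀ k, α ≤ ‖P ρ (K k) f‖ := by
    intro k
    have h1 : ⟪P ρ (K k) f, e⟫ = ⟪f, e⟫ := by
      rw [P_symm, P_of_mem ρ (show e ∈ Fix ρ (K k) from fun a _ => hinv a)]
    calc α ≤ ⟪P ρ (K k) f, e⟫ := by rw [h1]; exact hfe
      _ ≤ ‖P ρ (K k) f‖ * ‖e‖ := real_inner_le_norm _ _
      _ ≤ ‖P ρ (K k) f‖ * 1 := by gcongr
      _ = _ := mul_one _
  -- telescoping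
  have htel : ∀ k, ‖P ρ (K (k * M)) f‖ ^ 2 = ‖P ρ (K k) f‖ ^ 2 +
      ‖P ρ (K (k * M)) f - P ρ (K k) f‖ ^ 2 := by
    intro k
    have h1 : P ρ (K k) (P ρ (K (k * M)) f) = P ρ (K k) f := by
      refine P_eq ρ ?_ ?_ |>.trans rfl
      · exact P_mem ρ _ _
      · intro x hx
        have h2 := P_orth ρ (K k) f hx
        have h3 := P_orth ρ (K (k * M)) f (Fix_mono ρ (hKanti k) hx)
        rw [inner_sub_left] at h2 h3 ⊢
        linarith
    have h2 := norm_sq_P ρ (K k) (P ρ (K (k * M)) f)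
    rwa [h1] at h2
  obtain ⟨j, hjJ, hj⟩ : ∃ j < J, ‖P ρ (K (M ^ j * M)) f - P ρ (K (M ^ j)) f‖ ^ 2 ≤ α ^ 2 / 4 := by
    by_contra hcon
    push Not at hcon
    have h1 : ∀ j ≤ J, (j : ℝ) * (α ^ 2 / 4) ≤ ‖P ρ (K (M ^ j)) f‖ ^ 2 := by
      intro j
      induction j with
      | zero => intro _; simp
      | succ j ih =>
        intro hj
        have h2 := ih (by omega)
        have h3 := hcon j (by omega)
        have h4 := htel (M ^ j)
        rw [← pow_succ] at h3 h4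
        push_cast
        linarith
    have h2 := h1 J le_rfl
    have h3 : ‖P ρ (K (M ^ J)) f‖ ^ 2 ≤ 1 :=
      pow_le_one₀ (norm_nonneg _) ((norm_P_le ρ _ f).trans hf)
    rw [div_lt_iff₀ (by positivity)] at hJ
    linarith
  refine ⟨j, hjJ, fun b c => ?_⟩
  set k := M ^ j with hk
  by_contra hcon
  push Not at hcon
  set g := P ρ (K (k * M)) f with hg
  set f1 := P ρ (K k) f with hf1
  set f3 := f - g with hf3
  have hf3n : ‖f3‖ ≤ 1 := by
    have h1 := norm_sq_P ρ (K (k * M)) f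
    have h2 : ‖f3‖ ^ 2 ≤ 1 := by
      rw [hf3, hg]
      have : ‖f‖ ^ 2 ≤ 1 := pow_le_one₀ (norm_nonneg _) hf
      nlinarith [sq_nonneg ‖P ρ (K (k * M)) f‖]
    exact (sq_le_one_iff₀ (norm_nonneg _)).1 h2
  have hgmem : g ∈ Fix ρ (K (k * M)) := P_mem ρ _ _
  have hf1mem : f1 ∈ Fix ρ (K k) := P_mem ρ _ _
  have hgf1 : ∀ x ∈ Fix ρ (K k), ⟪g - f1, x⟫ = 0 := by
    intro x hx
    have h2 := P_orth ρ (K k) f hx
    have h3 := P_orth ρ (K (k * M)) f (Fix_mono ρ (hKanti k) hx)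
    rw [inner_sub_left] at h2 h3 ⊢
    linarith
  have hf3orth : ∀ x ∈ Fix ρ (K (k * M)), ⟪f3, x⟫ = 0 := fun x hx => P_orth ρ _ f hx
  -- the key pointwise estimate
  have hpt : ∀ v : V, ⟪ρ.U (k • v) f, f⟫ = 0 → ⟪ρ.U (k • v) f3, f3⟫ ≤ -(3 / 4 * α ^ 2) := by
    intro v hv
    have h1 : ⟪ρ.U (k • v) f, f⟫ = ⟪ρ.U (k • v) g, g⟫ + ⟪ρ.U (k • v) f3, f3⟫ := by
      have e1 : f = g + f3 := by rw [hf3]; abel
      have e2 : ⟪ρ.U (k • v) g, f3⟫ = 0 := by
        rw [real_inner_comm]; exact hf3orth _ (U_mem_Fix ρ _ hgmem)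
      have e3 : ⟪ρ.U (k • v) f3, g⟫ = 0 := by
        rw [adj]; exact hf3orth _ (U_mem_Fix ρ _ hgmem)
      conv_lhs => rw [e1]
      rw [map_add, inner_add_left, inner_add_right, inner_add_right, e2, e3]
      ring
    have h2 : ⟪ρ.U (k • v) g, g⟫ = ‖f1‖ ^ 2 + ⟪ρ.U (k • v) (g - f1), g - f1⟫ := by
      have e1 : g = f1 + (g - f1) := by abel
      have e0 : ρ.U (k • v) f1 = f1 := hf1mem _ ⟨v, rfl⟩
      have e2 : ⟪ρ.U (k • v) f1, g - f1⟫ = 0 := by
        rw [real_inner_comm]; exact hgf1 _ (U_mem_Fix ρ _ hf1mem)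
      have e3 : ⟪ρ.U (k • v) (g - f1), f1⟫ = 0 := by
        rw [adj]; exact hgf1 _ (U_mem_Fix ρ _ hf1mem)
      conv_lhs => rw [e1]
      rw [map_add, inner_add_left, inner_add_right, inner_add_right, e2, e3, e0,
        real_inner_self_eq_norm_sq]
      ring
    have h3 : -(α ^ 2 / 4) ≤ ⟪ρ.U (k • v) (g - f1), g - f1⟫ := by
      have e1 := abs_real_inner_le_norm (ρ.U (k • v) (g - f1)) (g - f1)
      rw [(ρ.U _).norm_map, ← sq] at e1
      have e2 := neg_abs_le ⟪ρ.U (k • v) (g - f1), g - f1⟫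
      linarith
    have h4 : α ^ 2 ≤ ‖f1‖ ^ 2 := pow_le_pow_left₀ hα.le (hlow k) 2
    linarith
  -- averages
  have havg : ∀ i < R, ∀ T : ℕ, 1 ≤ T →
      9 / 16 * α ^ 4 ≤
        ‖(T : ℝ)⁻¹ • ∑ t ∈ range T, orb ρ (k • w i) (k • b i) (k • c i) f3 t‖ ^ 2 := by
    intro i hi T hT
    have hT0 : (0 : ℝ) < T := by exact_mod_cast hT
    have h1 : ⟪(T : ℝ)⁻¹ • ∑ t ∈ range T, orb ρ (k • w i) (k • b i) (k • c i) f3 t, f3⟫ ≤
        -(3 / 4 * α ^ 2) := by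
      rw [inner_smul_left, sum_inner]
      simp only [RCLike.conj_to_real]
      rw [inv_mul_le_iff₀ hT0]
      have h2 : ∀ t ∈ range T, ⟪orb ρ (k • w i) (k • b i) (k • c i) f3 t, f3⟫ ≤
          -(3 / 4 * α ^ 2) := by
        intro t _
        have e : t ^ 2 • k • w i + t • k • b i + k • c i = k • (t ^ 2 • w i + t • b i + c i) := by
          rw [smul_add, smul_add, smul_comm k (t ^ 2), smul_comm k t]
        unfold orb
        rw [e]
        exact hpt _ (hcon i hi t)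
      have h3 := sum_le_sum h2
      rwa [sum_const, card_range, nsmul_eq_mul] at h3
    have h2 := abs_real_inner_le_norm
      ((T : ℝ)⁻¹ • ∑ t ∈ range T, orb ρ (k • w i) (k • b i) (k • c i) f3 t) f3
    have h3 : 3 / 4 * α ^ 2 ≤
        ‖(T : ℝ)⁻¹ • ∑ t ∈ range T, orb ρ (k • w i) (k • b i) (k • c i) f3 t‖ := by
      have h4 := neg_abs_le
        ⟪(T : ℝ)⁻¹ • ∑ t ∈ range T, orb ρ (k • w i) (k • b i) (k • c i) f3 t, f3⟫
      have h5 : ‖(T : ℝ)⁻¹ • ∑ t ∈ range T, orb ρ (k • w i) (k • b i) (k • c i) f3 t‖ * ‖f3‖ ≤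
          ‖(T : ℝ)⁻¹ • ∑ t ∈ range T, orb ρ (k • w i) (k • b i) (k • c i) f3 t‖ * 1 := by
        gcongr
      linarith
    calc 9 / 16 * α ^ 4 = (3 / 4 * α ^ 2) ^ 2 := by ring
      _ ≤ _ := pow_le_pow_left₀ (by positivity) h3 2
  choose G S hG hS hGle using fun i => vdc ρ (k • w i) (k • b i) (k • c i) f3 L hL1
  have hS2 : ∀ i < R, 9 / 16 * α ^ 4 ≤ S i := by
    intro i hi
    refine ge_of_tendsto (hG i) ?_
    filter_upwards [eventually_ge_atTop 1] with T hT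
    exact (havg i hi T hT).trans (hGle i T hT)
  have hsum : (R : ℝ) * (9 / 16 * α ^ 4) ≤ ∑ i ∈ range R, S i := by
    have := sum_le_sum (s := range R) fun i hi => hS2 i (mem_range.1 hi)
    rwa [sum_const, card_range, nsmul_eq_mul] at this
  -- the off-diagonal terms
  have hoff : ∀ h ∈ range L, ∀ h' ∈ range L, h ≠ h' →
      ∑ i ∈ range R, ‖P ρ {(2 * ((h : ℤ) - h')) • (k • w i)} f3‖ ^ 2 ≤ D := by
    intro h hh h' hh' hne
    have hz : (2 * ((h : ℤ) - h')) ≠ 0 := by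
      have : (h : ℤ) ≠ h' := by exact_mod_cast hne
      omega
    have hzL : |2 * ((h : ℤ) - h')| ≤ ((2 * L : ℕ) : ℤ) := by
      have h1 := mem_range.1 hh
      have h2 := mem_range.1 hh'
      rw [abs_le]
      push_cast
      omega
    have h1 := sum_proj_le ρ (fun i => (2 * ((h : ℤ) - h')) • (k • w i)) (range R) D f3 (by
      intro T hT hTc y hy
      refine hf3orth y ?_
      rintro _ ⟨v, rfl⟩
      exact Fix_closure ρ hy (hM k _ hz hzL T hT hTc v))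
    refine h1.trans ?_
    have : ‖f3‖ ^ 2 ≤ 1 := pow_le_one₀ (norm_nonneg _) hf3n
    nlinarith [(Nat.cast_nonneg D : (0 : ℝ) ≤ D)]
  have hdiag : ∀ h ∈ range L,
      ∑ i ∈ range R, ‖P ρ {(2 * ((h : ℤ) - h)) • (k • w i)} f3‖ ^ 2 ≤ R := by
    intro h _
    have h1 : ∀ i ∈ range R, ‖P ρ {(2 * ((h : ℤ) - h)) • (k • w i)} f3‖ ^ 2 ≤ 1 := by
      intro i _
      exact pow_le_one₀ (norm_nonneg _) ((norm_P_le ρ _ _).trans hf3n)
    have h2 := sum_le_sum h1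
    rwa [sum_const, card_range, nsmul_eq_mul, mul_one] at h2
  have hbound : ∑ i ∈ range R, S i ≤ ((L : ℝ)⁻¹) ^ 2 * (L * (R + L * D)) := by
    refine (sum_le_sum fun i _ => hS i).trans ?_
    rw [← mul_sum]
    refine mul_le_mul_of_nonneg_left ?_ (by positivity)
    rw [sum_comm]
    have h1 : ∀ h ∈ range L, ∑ i ∈ range R, ∑ h' ∈ range L,
        ‖P ρ {(2 * ((h : ℤ) - h')) • (k • w i)} f3‖ ^ 2 ≤ R + L * D := by
      intro h hh
      rw [sum_comm, ← add_sum_erase _ _ hh]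
      refine add_le_add (hdiag h hh) ?_
      have h2 : ∀ h' ∈ (range L).erase h, ∑ i ∈ range R,
          ‖P ρ {(2 * ((h : ℤ) - h')) • (k • w i)} f3‖ ^ 2 ≤ D := fun h' hh' =>
        hoff h hh h' (mem_of_mem_erase hh') (ne_of_mem_erase hh').symm
      refine (sum_le_sum h2).trans ?_
      rw [sum_const, nsmul_eq_mul]
      have h3 : (((range L).erase h).card : ℝ) ≤ L := by
        have := (card_erase_le (s := range L) (a := h)).trans (card_range L).le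
        exact_mod_cast this
      gcongr
    refine (sum_le_sum h1).trans ?_
    rw [sum_const, card_range, nsmul_eq_mul]
  have hfin := hsum.trans hbound
  have e1 : ((L : ℝ)⁻¹) ^ 2 * (L * (R + L * D)) = R * (L : ℝ)⁻¹ + D := by
    field_simp
  rw [e1] at hfin
  rw [div_lt_iff₀ (by positivity)] at hL hR
  have h1 : (L : ℝ)⁻¹ ≤ α ^ 4 / 8 := by
    rw [inv_le_iff_one_le_mul₀ hL0]
    linarith
  have h2 : (D : ℝ) ≤ R * (α ^ 4 / 8) := by linarith
  have h3 : (R : ℝ) * (L : ℝ)⁻¹ ≤ R * (α ^ 4 / 8) := by gcongr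
  have h4 : 0 < (R : ℝ) * α ^ 4 := by positivity
  linarith

end Pool.Agent.V5helper52.UC
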