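import Mathlib

/-!
Isometric representations of an abelian group on a real Hilbert space: projections to spaces of
invariant vectors, a counting inequality for families of commuting projections, and a
van der Corput estimate for quadratic orbits.
-/

set_option autoImplicit false

namespace Pool.Agent.V5helper52.UC

open Filter Topology Finset
open scoped RealInnerProductSpace

/-- an isometric representation of the additive group `V` on the real Hilbert space `H` -/
structure Rep (V H : Type) [AddCommGroup V] [NormedAddCommGroup H] [InnerProductSpace ℝ H] where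
  U : V → H →ₗᵢ[ℝ] H
  zero : ∀ x, U 0 x = x
  add : ∀ a b x, U (a + b) x = U a (U b x)

variable {V H : Type} [AddCommGroup V] [NormedAddCommGroup H] [InnerProductSpace ℝ H]
  (ρ : Rep V H)

theorem adj (a : V) (x y : H) : ⟪ρ.U a x, y⟫ = ⟪x, ρ.U (-a) y⟫ := by
  have h : y = ρ.U a (ρ.U (-a) y) := by rw [← ρ.add, add_neg_cancel, ρ.zero]
  conv_lhs => rw [h]
  exact (ρ.U a).inner_map_map _ _

theorem comm (a b : V) (x : H) : ρ.U a (ρ.U b x) = ρ.U b (ρ.U a x) := by
  rw [← ρ.add, ← ρ.add, add_comm]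

/-- vectors fixed by all `U a`, `a ∈ S` -/
def Fix (S : Set V) : Submodule ℝ H where
  carrier := {x | ∀ a ∈ S, ρ.U a x = x}
  add_mem' := by
    intro x y hx hy a ha
    rw [map_add, hx a ha, hy a ha]
  zero_mem' := by
    intro a _
    exact map_zero _
  smul_mem' := by
    intro c x hx a ha
    rw [map_smul, hx a ha]

theorem mem_Fix {S : Set V} {x : H} : x ∈ Fix ρ S ↔ ∀ a ∈ S, ρ.U a x = x := Iff.rfl

theorem isClosed_Fix (S : Set V) : IsClosed (Fix ρ S : Set H) := by
  have : (Fix ρ S : Set H) = ⋂ a ∈ S, {x | ρ.U a x = x} := by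
    ext x
    simp [mem_Fix]
  rw [this]
  refine isClosed_biInter fun a _ => ?_
  exact isClosed_eq (ρ.U a).continuous continuous_id

theorem Fix_mono {S T : Set V} (h : S ⊆ T) : Fix ρ T ≤ Fix ρ S := fun _ hx a ha => hx a (h ha)

/-- fixed by `S` implies fixed by the subgroup generated by `S` -/
theorem Fix_closure {S : Set V} {x : H} (hx : x ∈ Fix ρ S) {v : V}
    (hv : v ∈ AddSubgroup.closure S) : ρ.U v x = x := by
  induction hv using AddSubgroup.closure_induction with
  | mem a ha => exact hx a ha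
  | zero => exact ρ.zero x
  | add a b _ _ ha hb => rw [ρ.add, hb, ha]
  | neg a _ ha =>
    have : ρ.U (-a) (ρ.U a x) = x := by rw [← ρ.add, neg_add_cancel, ρ.zero]
    rwa [ha] at this

theorem U_mem_Fix {S : Set V} {x : H} (b : V) (hx : x ∈ Fix ρ S) : ρ.U b x ∈ Fix ρ S := by
  intro a ha
  rw [comm, hx a ha]

variable [CompleteSpace H]

instance (S : Set V) : (Fix ρ S).HasOrthogonalProjection := by
  have : CompleteSpace (Fix ρ S) := (isClosed_Fix ρ S).completeSpace_coe
  infer_instance

/-- the orthogonal projection to the vectors fixed by `S` -/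
noncomputable def P (S : Set V) : H →L[ℝ] H := (Fix ρ S).starProjection

theorem P_mem (S : Set V) (x : H) : P ρ S x ∈ Fix ρ S := Submodule.starProjection_apply_mem _ _

theorem P_eq {S : Set V} {x y : H} (hy : y ∈ Fix ρ S) (h : ∀ w ∈ Fix ρ S, ⟪x - y, w⟫ = 0) :
    P ρ S x = y := Submodule.eq_starProjection_of_mem_of_inner_eq_zero hy h

theorem P_orth (S : Set V) (x : H) {w : H} (hw : w ∈ Fix ρ S) : ⟪x - P ρ S x, w⟫ = 0 :=
  Submodule.starProjection_inner_eq_zero _ _ hw

theorem P_symm (S : Set V) (x y : H) : ⟪P ρ S x, y⟫ = ⟪x, P ρ S y⟫ :=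
  Submodule.inner_starProjection_left_eq_right _ _ _

theorem P_of_mem {S : Set V} {x : H} (hx : x ∈ Fix ρ S) : P ρ S x = x :=
  P_eq ρ hx fun w _ => by rw [sub_self, inner_zero_left]

theorem P_U (S : Set V) (b : V) (x : H) : P ρ S (ρ.U b x) = ρ.U b (P ρ S x) := by
  refine P_eq ρ (U_mem_Fix ρ b (P_mem ρ S x)) fun w hw => ?_
  rw [← map_sub, adj]
  exact P_orth ρ S x (U_mem_Fix ρ _ hw)

theorem P_mem_Fix (S : Set V) {T : Set V} {x : H} (hx : x ∈ Fix ρ T) : P ρ S x ∈ Fix ρ T := by
  intro a ha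
  rw [← P_U, hx a ha]

theorem P_comm (S T : Set V) (x : H) : P ρ T (P ρ S x) = P ρ S (P ρ T x) := by
  refine P_eq ρ (P_mem_Fix ρ S (P_mem ρ T x)) fun w hw => ?_
  rw [← map_sub, P_symm]
  exact P_orth ρ T x (P_mem_Fix ρ S hw)

theorem norm_sq_P (S : Set V) (x : H) : ‖x‖ ^ 2 = ‖P ρ S x‖ ^ 2 + ‖x - P ρ S x‖ ^ 2 := by
  have h : ⟪P ρ S x, x - P ρ S x⟫ = 0 := by
    rw [real_inner_comm]; exact P_orth ρ S x (P_mem ρ S x)
  have h2 := norm_add_sq_real (P ρ S x) (x - P ρ S x)
  rw [h, add_sub_cancel] at h2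
  linarith

theorem norm_P_le (S : Set V) (x : H) : ‖P ρ S x‖ ≤ ‖x‖ := by
  have h := norm_sq_P ρ S x
  exact le_of_sq_le_sq (by nlinarith [sq_nonneg ‖x - P ρ S x‖]) (norm_nonneg _)

/-- If `x` is orthogonal to the common fixed vectors of any `D+1` of the `a i`, then the
projections of `x` to the fixed vectors of the single `a i` are small in square mean. -/
theorem sum_proj_le {ι : Type} [DecidableEq ι] (a : ι → V) (s : Finset ι) :
    ∀ (D : ℕ) (x : H), (∀ T ⊆ s, T.card = D + 1 → ∀ y ∈ Fix ρ (a '' (T : Set ι)), ⟪x, y⟫ = 0) →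
      ∑ i ∈ s, ‖P ρ {a i} x‖ ^ 2 ≤ D * ‖x‖ ^ 2 := by
  induction s using Finset.induction_on with
  | empty => intro D x _; simp; positivity
  | insert j s hj ih =>
    intro D x hx
    rw [sum_insert hj]
    rcases Nat.eq_zero_or_pos D with rfl | hD
    · have hz : ∀ i ∈ insert j s, P ρ {a i} x = 0 := by
        intro i hi
        have h1 := hx {i} (by simpa using hi) (by simp) (P ρ {a i} x)
          (by simpa using P_mem ρ {a i} x)
        have h2 := P_orth ρ {a i} x (P_mem ρ {a i} x)
        rw [inner_sub_left, h1, zero_sub, neg_eq_zero] at h2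
        exact inner_self_eq_zero.1 h2
      rw [hz j (mem_insert_self _ _), sum_eq_zero fun i hi => by rw [hz i (mem_insert_of_mem hi)]; simp]
      simp
    obtain ⟨D, rfl⟩ : ∃ D', D = D' + 1 := ⟨D - 1, by omega⟩
    have h1 := ih D (P ρ {a j} x) (by
      intro T hT hc y hy
      rw [P_symm]
      refine hx (insert j T) (insert_subset_insert _ hT) ?_ _ ?_
      · rw [card_insert_of_notMem fun h => hj (hT h), hc]
      · rw [coe_insert, Set.image_insert_eq]
        intro b hb
        rcases hb with rfl | hb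
        · exact P_mem ρ _ y _ rfl
        · exact P_mem_Fix ρ _ hy b hb)
    have h2 := ih (D + 1) (x - P ρ {a j} x) (by
      intro T hT hc y hy
      rw [inner_sub_left, P_symm, hx T (hT.trans (subset_insert _ _)) hc y hy,
        hx T (hT.trans (subset_insert _ _)) hc _ (P_mem_Fix ρ _ hy), sub_zero])
    have h3 : ∀ i ∈ s, ‖P ρ {a i} x‖ ^ 2 =
        ‖P ρ {a i} (P ρ {a j} x)‖ ^ 2 + ‖P ρ {a i} (x - P ρ {a j} x)‖ ^ 2 := by
      intro i _
      rw [norm_sq_P ρ {a j} (P ρ {a i} x), map_sub, P_comm]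
    rw [sum_congr rfl h3, sum_add_distrib]
    have h4 := norm_sq_P ρ {a j} x
    push_cast at h2 ⊢
    nlinarith

/-- the mean ergodic theorem for the translations by `a` -/
theorem mean_erg (a : V) (x : H) :
    Tendsto (fun T : ℕ => (T : ℝ)⁻¹ • ∑ t ∈ range T, ρ.U (t • a) x) atTop (𝓝 (P ρ {a} x)) := by
  have h := ContinuousLinearMap.tendsto_birkhoffAverage_orthogonalProjection (𝕜 := ℝ)
    (ρ.U a).toContinuousLinearMap (ρ.U a).norm_toContinuousLinearMap_le x
  have h1 : ∀ t : ℕ, (ρ.U a).toContinuousLinearMap^[t] x = ρ.U (t • a) x := by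
    intro t
    induction t with
    | zero => simp [ρ.zero]
    | succ t ih =>
      rw [Function.iterate_succ_apply', ih, succ_nsmul', ρ.add]
      rfl
  have h2 : ((ρ.U a).toContinuousLinearMap.eqLocus (1 : H →L[ℝ] H)) = Fix ρ {a} := by
    ext y
    simp [mem_Fix]
  have h3 : P ρ {a} x = (((ρ.U a).toContinuousLinearMap.eqLocus (1 : H →L[ℝ] H)).orthogonalProjectionOnto x : H) := by
    refine P_eq ρ ?_ ?_
    · rw [← h2]
      exact Subtype.coe_prop _
    · intro w hw
      rw [← h2] at hw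
      exact Submodule.starProjection_inner_eq_zero _ _ hw
  rw [h3]
  refine h.congr fun T => ?_
  unfold birkhoffAverage birkhoffSum
  simp only [id, h1]

end Pool.Agent.V5helper52.UC
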