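import Mathlib

/-!
Integer matrices: characteristic polynomials of multiples, companion matrices, and an explicit
family of conjugates of a nilpotent matrix any few members of which span a subgroup of finite index
of the trace zero matrices.
-/

set_option autoImplicit false

namespace Pool.Agent.V5helper52.UC

open Finset Matrix

theorem charpoly_nsmul {n : Type} [Fintype n] [DecidableEq n] {A B : Matrix n n ℤ}
    (h : A.charpoly = B.charpoly) (k : ℕ) : (k • A).charpoly = (k • B).charpoly := by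
  rcases Nat.eq_zero_or_pos k with rfl | hk
  · simp
  have key : ∀ (M : Matrix n n ℤ) (x : ℤ), (k • M).charpoly.eval (k * x) =
      (k : ℤ) ^ (Fintype.card n) * M.charpoly.eval x := by
    intro M x
    rw [Matrix.eval_charpoly, Matrix.eval_charpoly, ← Matrix.det_smul]
    congr 1
    ext i j
    rw [Matrix.sub_apply, Matrix.smul_apply, Matrix.smul_apply, Matrix.sub_apply,
      Matrix.scalar_apply, Matrix.scalar_apply, Matrix.diagonal_apply, Matrix.diagonal_apply]
    by_cases hij : i = j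
    · rw [if_pos hij, if_pos hij, smul_eq_mul, nsmul_eq_mul, mul_sub]
    · rw [if_neg hij, if_neg hij, smul_eq_mul, nsmul_eq_mul, mul_sub, mul_zero]
  refine Polynomial.eq_of_infinite_eval_eq _ _ ?_
  refine Set.Infinite.mono (s := Set.range fun x : ℤ => (k : ℤ) * x) ?_ ?_
  · rintro _ ⟨x, rfl⟩
    show Polynomial.eval _ _ = Polynomial.eval _ _
    rw [key, key, h]
  · refine Set.infinite_range_of_injective fun x y hxy => ?_
    have hk' : (k : ℤ) ≠ 0 := by exact_mod_cast hk.ne'
    exact mul_left_cancel₀ hk' hxy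

/-- an integer matrix with a given characteristic polynomial and with lower left entry `1` -/
theorem exists_companion (m : ℕ) (f : Polynomial ℤ) (hf : f.Monic) (hd : f.natDegree = m + 2) :
    ∃ C : Matrix (Fin (m + 2)) (Fin (m + 2)) ℤ, C.charpoly = f ∧ C 1 0 = 1 := by
  let pb := AdjoinRoot.powerBasis' hf
  have hdim : pb.dim = f.natDegree := rfl
  let B : Matrix (Fin pb.dim) (Fin pb.dim) ℤ := Algebra.leftMulMatrix pb.basis pb.gen
  have h1 : Polynomial.aeval pb.gen B.charpoly = 0 := by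
    apply (injective_iff_map_eq_zero (Algebra.leftMulMatrix pb.basis)).mp
      (Algebra.leftMulMatrix_injective pb.basis)
    rw [← Polynomial.aeval_algHom_apply]
    exact Matrix.aeval_self_charpoly B
  have hgen : pb.gen = AdjoinRoot.root f := AdjoinRoot.powerBasis'_gen hf
  rw [hgen, AdjoinRoot.aeval_eq, AdjoinRoot.mk_eq_zero] at h1
  have h2 : B.charpoly.natDegree = f.natDegree := by
    rw [Matrix.charpoly_natDegree_eq_dim, Fintype.card_fin, hdim]
  have h3 : B.charpoly = f :=
    Polynomial.eq_of_monic_of_dvd_of_natDegree_le hf (Matrix.charpoly_monic B) h1 h2.le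
  have hdm : pb.dim = m + 2 := hdim.trans hd
  refine ⟨Matrix.reindex (finCongr hdm) (finCongr hdm) B, ?_, ?_⟩
  · rw [Matrix.charpoly_reindex, h3]
  · rw [Matrix.reindex_apply, Matrix.submatrix_apply]
    show Algebra.leftMulMatrix pb.basis pb.gen ((finCongr hdm).symm 1) ((finCongr hdm).symm 0) = 1
    rw [Algebra.leftMulMatrix_eq_repr_mul]
    have e0 : pb.basis ((finCongr hdm).symm 0) = 1 := by
      rw [pb.basis_eq_pow]
      simp
    have e1 : pb.gen = pb.basis ((finCongr hdm).symm 1) := by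
      rw [pb.basis_eq_pow]
      simp
    rw [e0, mul_one, e1, Module.Basis.repr_self]
    simp

variable {m : ℕ}

/-- first column -/
def uu (m : ℕ) (s : ℤ) : Fin (m + 2) → ℤ := fun i => if i = 0 then 0 else s ^ (i : ℕ)

/-- second row -/
def vv (m : ℕ) (s : ℤ) : Fin (m + 2) → ℤ := fun j =>
  if (j : ℕ) ≤ 1 then 0 else s ^ (2 * (m + 2) * ((j : ℕ) - 1))

def e0 (m : ℕ) : Fin (m + 2) → ℤ := Pi.single 0 1
def e1 (m : ℕ) : Fin (m + 2) → ℤ := Pi.single 1 1

/-- the conjugating matrix -/
def gam (m : ℕ) (s : ℤ) : Matrix (Fin (m + 2)) (Fin (m + 2)) ℤ :=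
  (1 + vecMulVec (uu m s) (e0 m)) * (1 - vecMulVec (e1 m) (vv m s))

/-- its inverse -/
def gam' (m : ℕ) (s : ℤ) : Matrix (Fin (m + 2)) (Fin (m + 2)) ℤ :=
  (1 + vecMulVec (e1 m) (vv m s)) * (1 - vecMulVec (uu m s) (e0 m))

theorem gam'_mul_gam (s : ℤ) : gam' m s * gam m s = 1 := by
  have h1 : vecMulVec (uu m s) (e0 m) * vecMulVec (uu m s) (e0 m) = 0 := by
    rw [Matrix.vecMulVec_mul_vecMulVec]
    simp [e0, uu]
  have h2 : vecMulVec (e1 m) (vv m s) * vecMulVec (e1 m) (vv m s) = 0 := by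
    rw [Matrix.vecMulVec_mul_vecMulVec]
    simp [e1, vv]
  have h3 : (1 - vecMulVec (uu m s) (e0 m)) * (1 + vecMulVec (uu m s) (e0 m)) = 1 := by
    rw [sub_mul, mul_add, mul_add, h1]
    simp
  have h4 : (1 + vecMulVec (e1 m) (vv m s)) * (1 - vecMulVec (e1 m) (vv m s)) = 1 := by
    rw [add_mul, mul_sub, mul_sub, h2]
    simp
  unfold gam gam'
  calc (1 + vecMulVec (e1 m) (vv m s)) * (1 - vecMulVec (uu m s) (e0 m)) *
        ((1 + vecMulVec (uu m s) (e0 m)) * (1 - vecMulVec (e1 m) (vv m s)))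
      = (1 + vecMulVec (e1 m) (vv m s)) * ((1 - vecMulVec (uu m s) (e0 m)) *
        (1 + vecMulVec (uu m s) (e0 m))) * (1 - vecMulVec (e1 m) (vv m s)) := by
          simp only [mul_assoc]
    _ = 1 := by rw [h3, mul_one, h4]

/-- the nilpotent matrices of the family -/
def WW (m : ℕ) (s : ℤ) : Matrix (Fin (m + 2)) (Fin (m + 2)) ℤ := fun i j =>
  if j = 0 then - ∑ l : Fin (m + 2), (if l = 0 then 0 else
    s ^ (2 * (m + 2) * ((l : ℕ) - 1) + l + i)) else s ^ (2 * (m + 2) * ((j : ℕ) - 1) + i)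

theorem WW_eq (s : ℤ) : gam m s * Matrix.single 0 1 1 * gam' m s = WW m s := by
  have h0 : (Matrix.single 0 1 1 : Matrix (Fin (m + 2)) (Fin (m + 2)) ℤ) =
      vecMulVec (e0 m) (e1 m) := by
    rw [Matrix.single_eq_single_vecMulVec_single]
    rfl
  have h1 : gam m s *ᵥ e0 m = fun i : Fin (m + 2) => s ^ (i : ℕ) := by
    unfold gam
    rw [← Matrix.mulVec_mulVec, Matrix.sub_mulVec, Matrix.one_mulVec, Matrix.vecMulVec_mulVec]
    have : vv m s ⬝ᵥ e0 m = 0 := by simp [vv, e0]
    rw [this]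
    simp only [MulOpposite.op_zero, zero_smul, sub_zero]
    rw [Matrix.add_mulVec, Matrix.one_mulVec, Matrix.vecMulVec_mulVec]
    have : e0 m ⬝ᵥ e0 m = 1 := by simp [e0]
    rw [this]
    funext i
    by_cases hi : i = 0
    · subst hi; simp [e0, uu]
    · simp [e0, uu, hi]
  have h2 : e1 m ᵥ* gam' m s = fun j : Fin (m + 2) => if j = 0 then - ∑ l : Fin (m + 2),
      (if l = 0 then 0 else s ^ (2 * (m + 2) * ((l : ℕ) - 1) + l)) else
      s ^ (2 * (m + 2) * ((j : ℕ) - 1)) := by
    have hv : ∀ j : Fin (m + 2), (e1 m + vv m s) j = if j = 0 then 0 else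
        s ^ (2 * (m + 2) * ((j : ℕ) - 1)) := by
      intro j
      rw [Pi.add_apply]
      by_cases hj : j = 0
      · subst hj; simp [e1, vv]
      · rw [if_neg hj]
        by_cases hj1 : j = 1
        · subst hj1; simp [e1, vv]
        · have : ¬ (j : ℕ) ≤ 1 := by
            intro h
            have h0 : (j : ℕ) ≠ 0 := fun h0 => hj (Fin.ext h0)
            have h1 : (j : ℕ) ≠ 1 := fun h0 => hj1 (Fin.ext (by simpa using h0))
            omega
          simp [e1, vv, hj1, this]
    unfold gam'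
    rw [← Matrix.vecMul_vecMul, Matrix.vecMul_add, Matrix.vecMul_one, Matrix.vecMul_vecMulVec]
    have : e1 m ⬝ᵥ e1 m = 1 := by simp [e1]
    rw [this, one_smul, Matrix.vecMul_sub, Matrix.vecMul_one, Matrix.vecMul_vecMulVec]
    have h3 : (e1 m + vv m s) ⬝ᵥ uu m s = ∑ l : Fin (m + 2),
        (if l = 0 then 0 else s ^ (2 * (m + 2) * ((l : ℕ) - 1) + l)) := by
      unfold dotProduct
      refine sum_congr rfl fun l _ => ?_
      rw [hv]
      by_cases hl : l = 0
      · simp [hl]
      · simp [hl, uu, pow_add]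
    rw [h3]
    funext j
    rw [Pi.sub_apply, hv]
    by_cases hj : j = 0
    · subst hj
      simp [e0]
    · simp [e0, hj]
  rw [h0, Matrix.mul_vecMulVec, Matrix.vecMulVec_mul, h1, h2]
  ext i j
  rw [Matrix.vecMulVec_apply]
  unfold WW
  by_cases hj : j = 0
  · rw [if_pos hj, if_pos hj, mul_neg, mul_sum]
    congr 1
    refine sum_congr rfl fun l _ => ?_
    by_cases hl : l = 0
    · simp [hl]
    · rw [if_neg hl, if_neg hl, pow_add _ _ (i : ℕ), mul_comm]
  · rw [if_neg hj, if_neg hj, pow_add _ _ (i : ℕ), mul_comm]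

end Pool.Agent.V5helper52.UC
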