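import Pool.Agent.V5helper52.UC.Erg

/-!
Invariant means on an abelian group along a Følner sequence, and the representation attached to one.
-/

set_option autoImplicit false

namespace Pool.Agent.V5helper52.UC

open Filter Topology Finset
open scoped RealInnerProductSpace

/-- bounded real functions -/
def Bd (V : Type) : Submodule ℝ (V → ℝ) where
  carrier := {f | ∃ C : ℝ, ∀ x, |f x| ≤ C}
  add_mem' := by
    rintro f g ⟨C, hC⟩ ⟨D, hD⟩
    exact ⟨C + D, fun x => (abs_add_le _ _).trans (add_le_add (hC x) (hD x))⟩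
  zero_mem' := ⟨0, fun x => by simp⟩
  smul_mem' := by
    rintro c f ⟨C, hC⟩
    refine ⟨|c| * C, fun x => ?_⟩
    rw [Pi.smul_apply, smul_eq_mul, abs_mul]
    exact mul_le_mul_of_nonneg_left (hC x) (abs_nonneg _)

theorem Bd_mul {V : Type} {f g : V → ℝ} (hf : f ∈ Bd V) (hg : g ∈ Bd V) :
    (fun x => f x * g x) ∈ Bd V := by
  obtain ⟨C, hC⟩ := hf
  obtain ⟨D, hD⟩ := hg
  refine ⟨C * D, fun x => ?_⟩
  rw [abs_mul]
  exact mul_le_mul (hC x) (hD x) (abs_nonneg _) ((abs_nonneg _).trans (hC x))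

theorem Bd_comp {V : Type} {f : V → ℝ} (hf : f ∈ Bd V) (g : V → V) :
    (fun x => f (g x)) ∈ Bd V := by
  obtain ⟨C, hC⟩ := hf
  exact ⟨C, fun x => hC _⟩

theorem Bd_add {V : Type} {f g : V → ℝ} (hf : f ∈ Bd V) (hg : g ∈ Bd V) :
    (fun x => f x + g x) ∈ Bd V := (Bd V).add_mem hf hg

theorem Bd_smul {V : Type} (c : ℝ) {f : V → ℝ} (hf : f ∈ Bd V) :
    (fun x => c * f x) ∈ Bd V := (Bd V).smul_mem c hf

theorem Bd_const {V : Type} (c : ℝ) : (fun _ : V => c) ∈ Bd V := ⟨|c|, fun _ => le_rfl⟩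

/-- an invariant mean on bounded functions -/
structure Mean (V : Type) [AddCommGroup V] where
  m : (V → ℝ) → ℝ
  add : ∀ f ∈ Bd V, ∀ g ∈ Bd V, m (fun x => f x + g x) = m f + m g
  smul : ∀ (c : ℝ), ∀ f ∈ Bd V, m (fun x => c * f x) = c * m f
  nonneg : ∀ f ∈ Bd V, (∀ x, 0 ≤ f x) → 0 ≤ m f
  inv : ∀ f ∈ Bd V, ∀ v, m (fun x => f (x + v)) = m f
  one : m (fun _ => 1) = 1

variable {V : Type} [AddCommGroup V]

theorem exists_mean [DecidableEq V] (F : ℕ → Finset V) (hne : ∀ n, (F n).Nonempty)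
    (hF : ∀ v, Tendsto (fun n => (({x ∈ F n | x + v ∈ F n} : Finset V).card : ℝ) / (F n).card)
      atTop (𝓝 1)) (φ : V → ℝ) (hφ : φ ∈ Bd V) (α : ℝ)
    (hE : ∀ n : ℕ, α - 1 / ((n : ℝ) + 1) ≤ ((F n).card : ℝ)⁻¹ * ∑ x ∈ F n, φ x) :
    ∃ μ : Mean V, α ≤ μ.m φ := by
  set 𝒰 : Ultrafilter ℕ := hyperfilter ℕ with h𝒰
  have h𝒰le : (𝒰 : Filter ℕ) ≤ atTop := by
    rw [← Nat.cofinite_eq_atTop]; exact hyperfilter_le_cofinite
  have hpos : ∀ n, (0 : ℝ) < (F n).card := fun n => by exact_mod_cast (hne n).card_pos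
  set avg : (V → ℝ) → ℕ → ℝ := fun f n => ((F n).card : ℝ)⁻¹ * ∑ x ∈ F n, f x with havg
  have hbd : ∀ (f : V → ℝ) (C : ℝ), (∀ x, |f x| ≤ C) → ∀ n, |avg f n| ≤ C := by
    intro f C hC n
    rw [havg]
    simp only
    rw [abs_mul, abs_inv, Nat.abs_cast, inv_mul_le_iff₀ (hpos n)]
    refine (abs_sum_le_sum_abs _ _).trans ?_
    refine (sum_le_sum fun x _ => hC x).trans ?_
    rw [sum_const, nsmul_eq_mul]
  have hlim : ∀ f ∈ Bd V, Tendsto (avg f) 𝒰 (𝓝 (limUnder (𝒰 : Filter ℕ) (avg f))) := by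
    rintro f ⟨C, hC⟩
    refine tendsto_nhds_limUnder ?_
    have h1 : Set.Icc (-C) C ∈ 𝒰.map (avg f) := by
      rw [Ultrafilter.mem_map]
      refine Filter.univ_mem' fun n => ?_
      have := hbd f C hC n
      rw [abs_le] at this
      exact this
    obtain ⟨x, _, hx⟩ := isCompact_Icc.ultrafilter_le_nhds (𝒰.map (avg f)) (by
      rw [le_principal_iff]; exact h1)
    exact ⟨x, hx⟩
  have huniq : ∀ f ∈ Bd V, ∀ c : ℝ, Tendsto (avg f) 𝒰 (𝓝 c) →
      limUnder (𝒰 : Filter ℕ) (avg f) = c := fun f hf c hc => tendsto_nhds_unique (hlim f hf) hc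
  refine ⟨⟨fun f => limUnder (𝒰 : Filter ℕ) (avg f), ?_, ?_, ?_, ?_, ?_⟩, ?_⟩
  · intro f hf g hg
    refine huniq _ (Bd_add hf hg) _ ?_
    refine ((hlim f hf).add (hlim g hg)).congr fun n => ?_
    simp only [havg]
    rw [sum_add_distrib, mul_add]
  · intro c f hf
    refine huniq _ (Bd_smul c hf) _ ?_
    refine ((hlim f hf).const_mul c).congr fun n => ?_
    simp only [havg]
    rw [← mul_sum]
    ring
  · intro f hf h0
    refine ge_of_tendsto (hlim f hf) (Filter.Eventually.of_forall fun n => ?_)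
    simp only [havg]
    exact mul_nonneg (inv_nonneg.2 (hpos n).le) (sum_nonneg fun x _ => h0 x)
  · intro f hf v
    obtain ⟨C, hC⟩ := hf
    refine huniq _ (Bd_comp ⟨C, hC⟩ _) _ ?_
    have hC0 : 0 ≤ C := (abs_nonneg _).trans (hC 0)
    have hdiff : Tendsto (fun n => avg (fun x => f (x + v)) n - avg f n) 𝒰 (𝓝 0) := by
      refine squeeze_zero_norm (a := fun n => 2 * C * (1 -
        (({x ∈ F n | x + v ∈ F n} : Finset V).card : ℝ) / (F n).card)) (fun n => ?_) ?_
      · set G : Finset V := {x ∈ F n | x + v ∈ F n} with hG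
        set B : Finset V := {x ∈ F n | ¬ (x + v ∈ F n)} with hB
        set G' : Finset V := G.image (fun x => x + v) with hG'
        have hG'F : G' ⊆ F n := by
          intro y hy
          obtain ⟨x, hx, rfl⟩ := mem_image.1 hy
          exact (mem_filter.1 hx).2
        have hG'c : G'.card = G.card := card_image_of_injective _ (add_left_injective v)
        have h1 : ∑ x ∈ F n, f (x + v) = ∑ y ∈ G', f y + ∑ x ∈ B, f (x + v) := by
          rw [← sum_filter_add_sum_filter_not (F n) (fun x => x + v ∈ F n)]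
          congr 1
          rw [hG', sum_image (fun x _ y _ h => add_left_injective v h)]
        have h2 : ∑ y ∈ F n, f y = ∑ y ∈ G', f y + ∑ y ∈ F n \ G', f y := by
          rw [add_comm, sum_sdiff hG'F]
        have hBc : B.card + G.card = (F n).card := by
          rw [add_comm]
          exact card_filter_add_card_filter_not _
        have hSc : (F n \ G').card + G.card = (F n).card := by
          rw [← hG'c]
          exact card_sdiff_add_card_eq_card hG'F
        have h3 : |∑ x ∈ F n, f (x + v) - ∑ y ∈ F n, f y| ≤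
            2 * C * ((F n).card - G.card) := by
          rw [h1, h2]
          have e1 : |∑ x ∈ B, f (x + v)| ≤ B.card * C := by
            refine (abs_sum_le_sum_abs _ _).trans ((sum_le_sum fun x _ => hC _).trans ?_)
            rw [sum_const, nsmul_eq_mul]
          have e2 : |∑ y ∈ F n \ G', f y| ≤ (F n \ G').card * C := by
            refine (abs_sum_le_sum_abs _ _).trans ((sum_le_sum fun x _ => hC _).trans ?_)
            rw [sum_const, nsmul_eq_mul]
          have e3 : (B.card : ℝ) = (F n).card - G.card := by rw [← hBc]; push_cast; ring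
          have e4 : ((F n \ G').card : ℝ) = (F n).card - G.card := by rw [← hSc]; push_cast; ring
          rw [e3] at e1
          rw [e4] at e2
          have e5 := abs_sub (∑ x ∈ B, f (x + v)) (∑ y ∈ F n \ G', f y)
          rw [add_sub_add_left_eq_sub]
          linarith
        simp only [havg]
        rw [← mul_sub, Real.norm_eq_abs, abs_mul, abs_inv, Nat.abs_cast, inv_mul_le_iff₀ (hpos n)]
        refine h3.trans (le_of_eq ?_)
        have := (hpos n).ne'
        field_simp
      · have h1 := (((hF v).mono_left h𝒰le).const_sub 1).const_mul (2 * C)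
        simpa using h1
    have := hdiff.add (hlim f ⟨C, hC⟩)
    rw [zero_add] at this
    refine this.congr fun n => ?_
    ring
  · refine huniq _ (Bd_const 1) _ ?_
    refine tendsto_const_nhds.congr fun n => ?_
    simp only [havg]
    rw [sum_const, nsmul_eq_mul, mul_one, inv_mul_cancel₀ (hpos n).ne']
  · have h1 : Tendsto (fun n : ℕ => α - 1 / ((n : ℝ) + 1)) 𝒰 (𝓝 (α - 0)) :=
      (tendsto_one_div_add_atTop_nhds_zero_nat.mono_left h𝒰le).const_sub α
    rw [sub_zero] at h1
    exact le_of_tendsto_of_tendsto' h1 (hlim φ hφ) hE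

/-- bounded functions with the form given by the mean -/
def W (μ : Mean V) : Type := (fun _ => ↥(Bd V)) μ

noncomputable instance (μ : Mean V) : AddCommGroup (W μ) := inferInstanceAs (AddCommGroup ↥(Bd V))
noncomputable instance (μ : Mean V) : Module ℝ (W μ) := inferInstanceAs (Module ℝ ↥(Bd V))

/-- the underlying function -/
def W.fn {μ : Mean V} (f : W μ) : V → ℝ := Subtype.val (p := fun g => g ∈ Bd V) f

theorem W.mem {μ : Mean V} (f : W μ) : f.fn ∈ Bd V := Subtype.prop (p := fun g => g ∈ Bd V) f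

/-- a bounded function as an element of the space -/
def W.mk (μ : Mean V) (f : V → ℝ) (hf : f ∈ Bd V) : W μ := (⟨f, hf⟩ : ↥(Bd V))

@[ext] theorem W.ext {μ : Mean V} {f g : W μ} (h : ∀ x, f.fn x = g.fn x) : f = g :=
  Subtype.ext (funext h)

@[simp] theorem W.fn_mk (μ : Mean V) (f : V → ℝ) (hf : f ∈ Bd V) : (W.mk μ f hf).fn = f := rfl
theorem W.fn_add {μ : Mean V} (f g : W μ) (x : V) : (f + g).fn x = f.fn x + g.fn x := rfl
theorem W.fn_smul {μ : Mean V} (c : ℝ) (f : W μ) (x : V) : (c • f).fn x = c * f.fn x := rfl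

@[instance_reducible]
noncomputable def preCore (μ : Mean V) : PreInnerProductSpace.Core ℝ (W μ) where
  inner f g := μ.m (fun x => f.fn x * g.fn x)
  conj_inner_symm f g := by
    simp only [RCLike.conj_to_real]
    congr 1
    funext x
    ring
  re_inner_nonneg f := μ.nonneg _ (Bd_mul f.mem f.mem) fun x => mul_self_nonneg _
  add_left f g h := by
    simp only [W.fn_add, add_mul]
    exact μ.add _ (Bd_mul f.mem h.mem) _ (Bd_mul g.mem h.mem)
  smul_left f g r := by
    simp only [W.fn_smul, RCLike.conj_to_real, mul_assoc]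
    exact μ.smul r _ (Bd_mul f.mem g.mem)

noncomputable instance (μ : Mean V) : SeminormedAddCommGroup (W μ) :=
  @InnerProductSpace.Core.toSeminormedAddCommGroup ℝ (W μ) _ _ _ (preCore μ)

noncomputable instance (μ : Mean V) : InnerProductSpace ℝ (W μ) :=
  InnerProductSpace.ofCore (preCore μ)

theorem W.inner_def {μ : Mean V} (f g : W μ) : ⟪f, g⟫ = μ.m (fun x => f.fn x * g.fn x) := rfl

/-- translation -/
noncomputable def shiftW (μ : Mean V) (v : V) : W μ ≃ₗ[ℝ] W μ where
  toFun f := W.mk μ (fun x => f.fn (x + v)) (Bd_comp f.mem _)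
  invFun f := W.mk μ (fun x => f.fn (x + -v)) (Bd_comp f.mem _)
  map_add' f g := rfl
  map_smul' c f := rfl
  left_inv f := by
    ext x
    simp
  right_inv f := by
    ext x
    simp

theorem shiftW_norm (μ : Mean V) (v : V) (f : W μ) : ‖shiftW μ v f‖ = ‖f‖ := by
  have h : ⟪shiftW μ v f, shiftW μ v f⟫ = ⟪f, f⟫ := by
    rw [W.inner_def, W.inner_def]
    exact μ.inv _ (Bd_mul f.mem f.mem) v
  rw [real_inner_self_eq_norm_sq, real_inner_self_eq_norm_sq] at h
  exact (sq_eq_sq₀ (norm_nonneg _) (norm_nonneg _)).mp h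

/-- the Hilbert space -/
abbrev HH (μ : Mean V) : Type := UniformSpace.Completion (W μ)

/-- the embedding -/
noncomputable def emb (μ : Mean V) : W μ →ₗ[ℝ] HH μ :=
  (UniformSpace.Completion.toComplₗᵢ : W μ →ₗᵢ[ℝ] HH μ).toLinearMap

theorem emb_apply (μ : Mean V) (f : W μ) : emb μ f = (f : HH μ) := rfl

theorem emb_dense (μ : Mean V) : DenseRange (emb μ) :=
  UniformSpace.Completion.denseRange_coe

theorem emb_norm (μ : Mean V) (v : V) (x : W μ) : ‖emb μ (shiftW μ v x)‖ = ‖emb μ x‖ := by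
  rw [emb_apply, emb_apply, UniformSpace.Completion.norm_coe, UniformSpace.Completion.norm_coe,
    shiftW_norm]

/-- the representation -/
noncomputable def rep (μ : Mean V) : Rep V (HH μ) where
  U v := ((shiftW μ v).extendOfIsometry (emb μ) (emb μ) (emb_dense μ) (emb_dense μ)
    (emb_norm μ v)).toLinearIsometry
  zero x := by
    refine UniformSpace.Completion.induction_on x (isClosed_eq (LinearIsometry.continuous _)
      continuous_id) fun f => ?_
    rw [← emb_apply, LinearIsometryEquiv.coe_toLinearIsometry, LinearEquiv.extendOfIsometry_eq]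
    congr 1
    ext x
    simp [shiftW]
  add a b x := by
    refine UniformSpace.Completion.induction_on x (isClosed_eq (LinearIsometry.continuous _)
      ((LinearIsometry.continuous _).comp (LinearIsometry.continuous _))) fun f => ?_
    rw [← emb_apply, LinearIsometryEquiv.coe_toLinearIsometry,
      LinearIsometryEquiv.coe_toLinearIsometry, LinearIsometryEquiv.coe_toLinearIsometry,
      LinearEquiv.extendOfIsometry_eq, LinearEquiv.extendOfIsometry_eq,
      LinearEquiv.extendOfIsometry_eq]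
    congr 1
    ext x
    simp [shiftW, add_assoc]

theorem rep_emb (μ : Mean V) (v : V) (f : W μ) : (rep μ).U v (emb μ f) = emb μ (shiftW μ v f) :=
  LinearEquiv.extendOfIsometry_eq _ _ _ (emb_dense μ) (emb_dense μ) (emb_norm μ v) f

theorem inner_emb (μ : Mean V) (f g : W μ) : ⟪emb μ f, emb μ g⟫ = μ.m (fun x => f.fn x * g.fn x) := by
  rw [emb_apply, emb_apply, UniformSpace.Completion.inner_coe, W.inner_def]

/-- the correspondence principle -/
theorem corr (μ : Mean V) (E : Set V) {α : ℝ} (h : α ≤ μ.m (E.indicator 1)) :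
    ∃ (H : Type) (_ : NormedAddCommGroup H) (_ : InnerProductSpace ℝ H) (_ : CompleteSpace H)
      (ρ : Rep V H) (f e : H), ‖f‖ ≤ 1 ∧ ‖e‖ ≤ 1 ∧ (∀ a, ρ.U a e = e) ∧ α ≤ ⟪f, e⟫ ∧
      ∀ v, ⟪ρ.U v f, f⟫ ≠ 0 → ∃ x ∈ E, ∃ y ∈ E, v = x - y := by
  classical
  have hbd : (E.indicator 1 : V → ℝ) ∈ Bd V := by
    refine ⟨1, fun x => ?_⟩
    by_cases hx : x ∈ E <;> simp [hx]
  set f : W μ := W.mk μ (E.indicator 1) hbd with hf
  set e : W μ := W.mk μ (fun _ => 1) (Bd_const 1) with he
  have hm0 : μ.m (fun _ => 0) = 0 := by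
    have := μ.smul 0 _ (Bd_const 1)
    simpa using this
  refine ⟨HH μ, inferInstance, inferInstance, inferInstance, rep μ, emb μ f, emb μ e,
    ?_, ?_, ?_, ?_, ?_⟩
  · have h1 : ‖emb μ f‖ ^ 2 ≤ 1 := by
      rw [← real_inner_self_eq_norm_sq, inner_emb]
      have h2 := μ.nonneg (fun x => 1 + (-1) * (f.fn x * f.fn x))
        (Bd_add (Bd_const 1) (Bd_smul (-1) (Bd_mul f.mem f.mem))) (by
          intro x
          rw [hf, W.fn_mk]
          by_cases hx : x ∈ E <;> simp [hx])
      rw [μ.add _ (Bd_const 1) _ (Bd_smul (-1) (Bd_mul f.mem f.mem)), μ.one,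
        μ.smul (-1) _ (Bd_mul f.mem f.mem)] at h2
      linarith
    exact (sq_le_one_iff₀ (norm_nonneg _)).1 h1
  · have h1 : ‖emb μ e‖ ^ 2 ≤ 1 := by
      rw [← real_inner_self_eq_norm_sq, inner_emb, he, W.fn_mk]
      simp only [mul_one]
      rw [μ.one]
    exact (sq_le_one_iff₀ (norm_nonneg _)).1 h1
  · intro a
    rw [rep_emb]
    rfl
  · rw [inner_emb]
    have e1 : (fun x => f.fn x * e.fn x) = E.indicator 1 := by
      funext x
      exact mul_one _
    rw [e1]
    exact h
  · intro v hv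
    by_contra hcon
    push Not at hcon
    apply hv
    rw [rep_emb, inner_emb]
    rw [← hm0]
    congr 1
    funext x
    show (E.indicator (1 : V → ℝ) (x + v)) * (E.indicator (1 : V → ℝ) x) = 0
    by_cases hx : x ∈ E
    · by_cases hxv : x + v ∈ E
      · exact absurd (by abel) (hcon (x + v) hxv x hx)
      · rw [Set.indicator_of_notMem hxv, zero_mul]
    · rw [Set.indicator_of_notMem hx, mul_zero]

end Pool.Agent.V5helper52.UC
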