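import Pool.Agent.V5helper52.UC.Erg

/-!
A van der Corput estimate for quadratic orbits of an isometric representation.
-/

set_option autoImplicit false

namespace Pool.Agent.V5helper52.UC

open Filter Topology Finset
open scoped RealInnerProductSpace

variable {V H : Type} [AddCommGroup V] [NormedAddCommGroup H] [InnerProductSpace ℝ H]
  (ρ : Rep V H)

/-- the quadratic orbit -/
def orb (a b c : V) (f : H) (t : ℕ) : H := ρ.U (t ^ 2 • a + t • b + c) f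

theorem norm_orb (a b c : V) (f : H) (t : ℕ) : ‖orb ρ a b c f t‖ = ‖f‖ :=
  (ρ.U _).norm_map f

theorem inner_orb (a b c : V) (f : H) (t h h' : ℕ) :
    ⟪orb ρ a b c f (t + h), orb ρ a b c f (t + h')⟫ =
      ⟪ρ.U (t • ((2 * ((h : ℤ) - h')) • a)) (ρ.U ((((h : ℤ) ^ 2 - (h' : ℤ) ^ 2)) • a + ((h : ℤ) - h') • b) f), f⟫ := by
  unfold orb
  rw [real_inner_comm, adj, ← ρ.add, ← ρ.add, real_inner_comm]
  congr 3
  module

omit [InnerProductSpace ℝ H] in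
/-- shifting a sum -/
theorem shift_sum {x : ℕ → H} {B : ℝ} (hx : ∀ t, ‖x t‖ ≤ B) (T h : ℕ) :
    ‖∑ t ∈ range T, x t - ∑ t ∈ range T, x (t + h)‖ ≤ 2 * h * B := by
  induction h with
  | zero => simp
  | succ h ih =>
    have e : ∑ t ∈ range T, x (t + (h + 1)) = ∑ t ∈ range T, x (t + h) + x (T + h) - x h := by
      have h1 := Finset.sum_range_succ (fun t => x (t + h)) T
      have h2 := Finset.sum_range_succ' (fun t => x (t + h)) T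
      rw [h1] at h2
      simp only [zero_add] at h2
      rw [h2, add_sub_cancel_right]
      exact sum_congr rfl fun t _ => by congr 1; ring
    rw [e]
    have e2 : ∑ t ∈ range T, x t - (∑ t ∈ range T, x (t + h) + x (T + h) - x h) =
        (∑ t ∈ range T, x t - ∑ t ∈ range T, x (t + h)) - x (T + h) + x h := by abel
    rw [e2]
    refine (norm_add_le _ _).trans ?_
    refine (add_le_add (norm_sub_le _ _) le_rfl).trans ?_
    push_cast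
    linarith [hx (T + h), hx h]

/-- the square of a mean is at most the mean of the squares -/
theorem norm_avg_sq_le (y : ℕ → H) (T : ℕ) :
    ‖(T : ℝ)⁻¹ • ∑ t ∈ range T, y t‖ ^ 2 ≤ (T : ℝ)⁻¹ * ∑ t ∈ range T, ‖y t‖ ^ 2 := by
  rcases Nat.eq_zero_or_pos T with rfl | hT
  · simp
  have hT0 : (0 : ℝ) < T := by exact_mod_cast hT
  rw [norm_smul, mul_pow, Real.norm_eq_abs, sq_abs]
  have h1 : ‖∑ t ∈ range T, y t‖ ^ 2 ≤ (∑ t ∈ range T, ‖y t‖) ^ 2 :=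
    pow_le_pow_left₀ (norm_nonneg _) (norm_sum_le _ _) 2
  have h2 := sq_sum_le_card_mul_sum_sq (s := range T) (f := fun t => ‖y t‖)
  rw [card_range] at h2
  have h3 := h1.trans h2
  calc ((T : ℝ)⁻¹) ^ 2 * ‖∑ t ∈ range T, y t‖ ^ 2
      ≤ ((T : ℝ)⁻¹) ^ 2 * (T * ∑ t ∈ range T, ‖y t‖ ^ 2) := by gcongr
    _ = (T : ℝ)⁻¹ * ∑ t ∈ range T, ‖y t‖ ^ 2 := by field_simp

/-- finite form of the van der Corput inequality -/
theorem vdc_fin {x : ℕ → H} {B : ℝ} (hx : ∀ t, ‖x t‖ ≤ B) (L : ℕ) (hL : 1 ≤ L) (T : ℕ)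
    (hT : 1 ≤ T) :
    ‖(T : ℝ)⁻¹ • ∑ t ∈ range T, x t‖ ^ 2 ≤
      ((L : ℝ)⁻¹) ^ 2 * (∑ h ∈ range L, ∑ h' ∈ range L,
        (T : ℝ)⁻¹ * ∑ t ∈ range T, ⟪x (t + h), x (t + h')⟫) +
        (4 * L * B ^ 2 * (T : ℝ)⁻¹ + 4 * L ^ 2 * B ^ 2 * ((T : ℝ)⁻¹) ^ 2) := by
  have hB : 0 ≤ B := (norm_nonneg _).trans (hx 0)
  have hT0 : (0 : ℝ) < T := by exact_mod_cast hT
  have hL0 : (0 : ℝ) < L := by exact_mod_cast hL
  set y : ℕ → H := fun t => (L : ℝ)⁻¹ • ∑ h ∈ range L, x (t + h) with hy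
  have hyB : ∀ t, ‖y t‖ ≤ B := by
    intro t
    rw [hy]
    simp only
    rw [norm_smul, norm_inv, Real.norm_natCast]
    have : ‖∑ h ∈ range L, x (t + h)‖ ≤ ∑ _h ∈ range L, B :=
      norm_sum_le_of_le _ fun h _ => hx _
    rw [sum_const, card_range, nsmul_eq_mul] at this
    rw [inv_mul_le_iff₀ hL0]
    exact this
  -- the averages of `x` and of `y` are close
  have h1 : ‖(T : ℝ)⁻¹ • ∑ t ∈ range T, x t - (T : ℝ)⁻¹ • ∑ t ∈ range T, y t‖ ≤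
      2 * L * B * (T : ℝ)⁻¹ := by
    have e : ∑ t ∈ range T, x t - ∑ t ∈ range T, y t =
        (L : ℝ)⁻¹ • ∑ h ∈ range L, (∑ t ∈ range T, x t - ∑ t ∈ range T, x (t + h)) := by
      rw [sum_sub_distrib, sum_const, card_range, smul_sub, ← Nat.cast_smul_eq_nsmul ℝ, smul_smul,
        inv_mul_cancel₀ hL0.ne', one_smul, hy, sum_comm, ← smul_sum]
    rw [← smul_sub, e, norm_smul, norm_smul, norm_inv, norm_inv, Real.norm_natCast,
      Real.norm_natCast]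
    have h2 : ‖∑ h ∈ range L, (∑ t ∈ range T, x t - ∑ t ∈ range T, x (t + h))‖ ≤
        ∑ _h ∈ range L, 2 * L * B := by
      refine norm_sum_le_of_le _ fun h hh => (shift_sum hx T h).trans ?_
      have : (h : ℝ) ≤ L := by exact_mod_cast (mem_range.1 hh).le
      gcongr
    rw [sum_const, card_range, nsmul_eq_mul] at h2
    calc (T : ℝ)⁻¹ * ((L : ℝ)⁻¹ * _) ≤ (T : ℝ)⁻¹ * ((L : ℝ)⁻¹ * (L * (2 * L * B))) := by gcongr
      _ = 2 * L * B * (T : ℝ)⁻¹ := by field_simp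
  have h2 : ‖(T : ℝ)⁻¹ • ∑ t ∈ range T, y t‖ ≤ B := by
    rw [norm_smul, norm_inv, Real.norm_natCast]
    have : ‖∑ t ∈ range T, y t‖ ≤ ∑ _h ∈ range T, B :=
      norm_sum_le_of_le _ fun h _ => hyB _
    rw [sum_const, card_range, nsmul_eq_mul] at this
    rw [inv_mul_le_iff₀ hT0]
    exact this
  have h3 : ‖(T : ℝ)⁻¹ • ∑ t ∈ range T, x t‖ ≤
      ‖(T : ℝ)⁻¹ • ∑ t ∈ range T, y t‖ + 2 * L * B * (T : ℝ)⁻¹ := by
    have := norm_add_le ((T : ℝ)⁻¹ • ∑ t ∈ range T, y t)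
      ((T : ℝ)⁻¹ • ∑ t ∈ range T, x t - (T : ℝ)⁻¹ • ∑ t ∈ range T, y t)
    rw [add_sub_cancel] at this
    linarith
  have h4 : ‖(T : ℝ)⁻¹ • ∑ t ∈ range T, x t‖ ^ 2 ≤
      ‖(T : ℝ)⁻¹ • ∑ t ∈ range T, y t‖ ^ 2 +
        (4 * L * B ^ 2 * (T : ℝ)⁻¹ + 4 * L ^ 2 * B ^ 2 * ((T : ℝ)⁻¹) ^ 2) := by
    have h5 := pow_le_pow_left₀ (norm_nonneg _) h3 2
    have h6 : ‖(T : ℝ)⁻¹ • ∑ t ∈ range T, y t‖ * (2 * L * B * (T : ℝ)⁻¹) ≤
        B * (2 * L * B * (T : ℝ)⁻¹) := by gcongr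
    nlinarith
  refine h4.trans (add_le_add ((norm_avg_sq_le y T).trans (le_of_eq ?_)) le_rfl)
  have h7 : ∀ t, ‖y t‖ ^ 2 = ((L : ℝ)⁻¹) ^ 2 * ∑ h ∈ range L, ∑ h' ∈ range L,
      ⟪x (t + h), x (t + h')⟫ := by
    intro t
    rw [← real_inner_self_eq_norm_sq, hy]
    simp only
    rw [inner_smul_left, inner_smul_right, sum_inner]
    simp only [inner_sum, RCLike.conj_to_real]
    ring
  simp only [h7]
  rw [← mul_sum, ← mul_assoc, mul_comm ((T : ℝ)⁻¹) _, mul_assoc]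
  congr 1
  simp only [← mul_sum]
  congr 1
  rw [sum_comm]
  refine sum_congr rfl fun h _ => ?_
  rw [sum_comm]

variable [CompleteSpace H]

theorem vdc (a b c : V) (f : H) (L : ℕ) (hL : 1 ≤ L) :
    ∃ (g : ℕ → ℝ) (S : ℝ), Tendsto g atTop (𝓝 S) ∧
      S ≤ ((L : ℝ)⁻¹) ^ 2 * ∑ h ∈ range L, ∑ h' ∈ range L,
        ‖P ρ {(2 * ((h : ℤ) - h')) • a} f‖ ^ 2 ∧
      ∀ T : ℕ, 1 ≤ T → ‖(T : ℝ)⁻¹ • ∑ t ∈ range T, orb ρ a b c f t‖ ^ 2 ≤ g T := by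
  set x := orb ρ a b c f with hxdef
  set e : ℕ → ℕ → V := fun h h' => (((h : ℤ) ^ 2 - (h' : ℤ) ^ 2)) • a + ((h : ℤ) - h') • b with he
  refine ⟨fun T => ((L : ℝ)⁻¹) ^ 2 * (∑ h ∈ range L, ∑ h' ∈ range L,
        (T : ℝ)⁻¹ * ∑ t ∈ range T, ⟪x (t + h), x (t + h')⟫) +
        (4 * L * ‖f‖ ^ 2 * (T : ℝ)⁻¹ + 4 * L ^ 2 * ‖f‖ ^ 2 * ((T : ℝ)⁻¹) ^ 2),
    ((L : ℝ)⁻¹) ^ 2 * (∑ h ∈ range L, ∑ h' ∈ range L,
      ⟪P ρ {(2 * ((h : ℤ) - h')) • a} (ρ.U (e h h') f), f⟫) +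
      (4 * L * ‖f‖ ^ 2 * 0 + 4 * L ^ 2 * ‖f‖ ^ 2 * 0 ^ 2), ?_, ?_, ?_⟩
  · have h0 : Tendsto (fun T : ℕ => (T : ℝ)⁻¹) atTop (𝓝 0) := tendsto_inv_atTop_nhds_zero_nat
    refine Tendsto.add (Tendsto.const_mul _ ?_)
      ((h0.const_mul _).add ((h0.pow 2).const_mul _))
    refine tendsto_finsetSum _ fun h _ => tendsto_finsetSum _ fun h' _ => ?_
    have h1 := mean_erg ρ ((2 * ((h : ℤ) - h')) • a) (ρ.U (e h h') f)
    have h2 := (Tendsto.inner (𝕜 := ℝ) h1 (tendsto_const_nhds (x := f)))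
    refine h2.congr fun T => ?_
    rw [inner_smul_left, sum_inner]
    simp only [RCLike.conj_to_real]
    congr 1
    refine sum_congr rfl fun t _ => ?_
    rw [hxdef, inner_orb]
  · rw [mul_zero, mul_comm _ ((0 : ℝ) ^ 2)]
    simp only [ne_eq, OfNat.ofNat_ne_zero, not_false_eq_true, zero_pow, zero_mul, add_zero]
    refine mul_le_mul_of_nonneg_left (sum_le_sum fun h _ => sum_le_sum fun h' _ => ?_) (by positivity)
    set Q := P ρ {(2 * ((h : ℤ) - h')) • a} with hQ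
    have h1 : ⟪Q (ρ.U (e h h') f), f⟫ = ⟪ρ.U (e h h') (Q f), Q f⟫ := by
      have h2 : Q (ρ.U (e h h') f) = Q (Q (ρ.U (e h h') f)) := (P_of_mem ρ (P_mem ρ _ _)).symm
      rw [h2, hQ, P_symm, P_U]
    rw [h1]
    refine (real_inner_le_norm _ _).trans ?_
    rw [(ρ.U _).norm_map, sq]
  · intro T hT
    exact vdc_fin (fun t => (norm_orb ρ a b c f t).le) L hL T hT

end Pool.Agent.V5helper52.UC
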